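import Pool.Agent.helper24.SK.Spec

namespace Pool.Agent.SK

open Finset ArithmeticFunction MeasureTheory
open Pool.Agent.CH (nit DPb Win Tset ph)
open Pool.Agent.EC (tri vN fN XN TL AdT)
open Pool.Agent.helper85.BVP (tau)
open GD (ks)

lemma trb_cont (v δ : ℝ) : Continuous (tr0 v δ) := by
  unfold tr0
  fun_prop

lemma trb_zero {v δ : ℝ} (hδ : 0 < δ) {x : ℝ} (hx : δ ≤ |x - v|) : tr0 v δ x = 0 := by
  unfold tr0
  apply max_eq_left
  have : 1 ≤ |x - v| / δ := (one_le_div hδ).2 hx
  linarith

lemma trb_supp {v δ : ℝ} (hδ : 0 < δ) {x : ℝ} (hx : x ∉ Set.Icc (v - δ) (v + δ)) :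
    tr0 v δ x = 0 := by
  apply trb_zero hδ
  by_contra h
  push Not at h
  rw [abs_lt] at h
  exact hx ⟨by linarith [h.1], by linarith [h.2]⟩

lemma trb_cs {v δ : ℝ} (hδ : 0 < δ) : HasCompactSupport (tr0 v δ) :=
  HasCompactSupport.intro isCompact_Icc (fun _ hx => trb_supp hδ hx)

lemma trb_int {v δ : ℝ} (hδ : 0 < δ) : Integrable (tr0 v δ) :=
  (trb_cont v δ).integrable_of_hasCompactSupport (trb_cs hδ)

lemma trb_set {v δ : ℝ} (hδ : 0 < δ) :
    ∫ x, tr0 v δ x = ∫ x in (v - δ)..(v + δ), tr0 v δ x := by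
  rw [intervalIntegral.integral_of_le (by linarith), ← integral_Icc_eq_integral_Ioc]
  symm
  apply setIntegral_eq_integral_of_forall_compl_eq_zero
  intro x hx
  exact trb_supp hδ hx

lemma trb_left {v δ : ℝ} (hδ : 0 < δ) {x : ℝ} (h1 : v - δ ≤ x) (h2 : x ≤ v) :
    tr0 v δ x = 1 + (x - v) / δ := by
  unfold tr0
  rw [abs_of_nonpos (by linarith)]
  have h3 : 0 ≤ 1 - -(x - v) / δ := by
    have : -(x - v) / δ ≤ 1 := (div_le_one hδ).2 (by linarith)
    linarith
  rw [max_eq_right h3]
  ring

lemma trb_right {v δ : ℝ} (hδ : 0 < δ) {x : ℝ} (h1 : v ≤ x) (h2 : x ≤ v + δ) :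
    tr0 v δ x = 1 - (x - v) / δ := by
  unfold tr0
  rw [abs_of_nonneg (by linarith)]
  have h3 : 0 ≤ 1 - (x - v) / δ := by
    have : (x - v) / δ ≤ 1 := (div_le_one hδ).2 (by linarith)
    linarith
  rw [max_eq_right h3]

lemma trb_val {v δ : ℝ} (hδ : 0 < δ) : ∫ x, tr0 v δ x = δ := by
  rw [trb_set hδ]
  have hc := trb_cont v δ
  rw [← intervalIntegral.integral_add_adjacent_intervals (b := v)
    (hc.intervalIntegrable _ _) (hc.intervalIntegrable _ _)]
  have e1 : ∫ x in (v - δ)..v, tr0 v δ x = ∫ x in (v - δ)..v, (1 + (x - v) / δ) := by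
    apply intervalIntegral.integral_congr
    intro x hx
    rw [Set.uIcc_of_le (by linarith)] at hx
    exact trb_left hδ hx.1 hx.2
  have e2 : ∫ x in v..(v + δ), tr0 v δ x = ∫ x in v..(v + δ), (1 - (x - v) / δ) := by
    apply intervalIntegral.integral_congr
    intro x hx
    rw [Set.uIcc_of_le (by linarith)] at hx
    exact trb_right hδ hx.1 hx.2
  have d1 : ∀ x ∈ Set.uIcc (v - δ) v, HasDerivAt (fun x : ℝ => x + (x - v) ^ 2 / (2 * δ))
      (1 + (x - v) / δ) x := by
    intro x _
    have h : HasDerivAt (fun x : ℝ => x + (x - v) ^ 2 / (2 * δ))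
        (1 + (((2 : ℕ) : ℝ) * (x - v) ^ (2 - 1) * 1) / (2 * δ)) x :=
      (hasDerivAt_id x).add ((((hasDerivAt_id x).sub_const v).pow 2).div_const (2 * δ))
    convert h using 1
    field_simp
    norm_num
    ring
  have d2 : ∀ x ∈ Set.uIcc v (v + δ), HasDerivAt (fun x : ℝ => x - (x - v) ^ 2 / (2 * δ))
      (1 - (x - v) / δ) x := by
    intro x _
    have h : HasDerivAt (fun x : ℝ => x - (x - v) ^ 2 / (2 * δ))
        (1 - (((2 : ℕ) : ℝ) * (x - v) ^ (2 - 1) * 1) / (2 * δ)) x :=
      (hasDerivAt_id x).sub ((((hasDerivAt_id x).sub_const v).pow 2).div_const (2 * δ))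
    convert h using 1
    field_simp
    norm_num
    ring
  rw [e1, e2, intervalIntegral.integral_eq_sub_of_hasDerivAt d1
    ((by fun_prop : Continuous fun x : ℝ => 1 + (x - v) / δ).intervalIntegrable _ _),
    intervalIntegral.integral_eq_sub_of_hasDerivAt d2
    ((by fun_prop : Continuous fun x : ℝ => 1 - (x - v) / δ).intervalIntegrable _ _)]
  field_simp
  ring

lemma trb_clp {v δ : ℝ} (hδ : 0 < δ) (x : ℝ) :
    tr0 v δ x = clp ((x - v) / δ + 1) - clp ((x - v) / δ) := by
  have habs : |x - v| / δ = |(x - v) / δ| := by rw [abs_div, abs_of_pos hδ]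
  unfold tr0 clp
  rw [habs]
  generalize (x - v) / δ = u
  rcases le_total u (-1) with h | h
  · rw [abs_of_nonpos (by linarith), max_eq_left (by linarith), min_eq_right (by linarith),
      max_eq_left (by linarith), min_eq_right (by linarith), max_eq_left (by linarith)]
    ring
  · rcases le_total u 0 with h0 | h0
    · rw [abs_of_nonpos h0, max_eq_right (by linarith), min_eq_right (by linarith),
        max_eq_right (by linarith), min_eq_right (by linarith), max_eq_left h0]
      ring
    · rcases le_total u 1 with h1 | h1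
      · rw [abs_of_nonneg h0, max_eq_right (by linarith), min_eq_left (by linarith),
          max_eq_right (by linarith), min_eq_right h1, max_eq_right h0]
      · rw [abs_of_nonneg h0, max_eq_left (by linarith), min_eq_left (by linarith),
          max_eq_right (by linarith), min_eq_left h1]
        norm_num

/-- Basic facts about the triangle `tr0`. -/
theorem TRB : TRB_stmt := by
  intro v δ hδ
  have h01 : ∀ x, 0 ≤ tr0 v δ x ∧ tr0 v δ x ≤ 1 := by
    intro x
    refine ⟨le_max_left _ _, max_le zero_le_one ?_⟩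
    have : 0 ≤ |x - v| / δ := by positivity
    linarith
  have hI2 : Integrable (fun x => tr0 v δ x * |x - v|) := by
    apply Continuous.integrable_of_hasCompactSupport
    · exact (trb_cont v δ).mul (by fun_prop)
    · exact (trb_cs hδ).mul_right
  refine ⟨h01, fun x hx => trb_zero hδ hx, ?_, trb_int hδ, trb_val hδ, fun x => trb_clp hδ x,
    hI2, ?_⟩
  · intro x y
    unfold tr0
    have hmm : ∀ a b : ℝ, |max 0 a - max 0 b| ≤ |a - b| := by
      intro a b
      have := abs_max_sub_max_le_abs a b 0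
      rwa [max_comm a 0, max_comm b 0] at this
    refine (hmm _ _).trans ?_
    rw [show (1 - |x - v| / δ) - (1 - |y - v| / δ) = (|y - v| - |x - v|) / δ by ring, abs_div,
      abs_of_pos hδ]
    apply div_le_div_of_nonneg_right _ hδ.le
    refine (abs_abs_sub_abs_le_abs_sub _ _).trans ?_
    rw [show y - v - (x - v) = -(x - y) by ring, abs_neg]
  · calc ∫ x, tr0 v δ x * |x - v| ≤ ∫ x, tr0 v δ x * δ := by
          apply integral_mono hI2 ((trb_int hδ).mul_const δ)
          intro x
          rcases le_total δ |x - v| with h | h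
          · simp only [trb_zero hδ h, zero_mul, le_refl]
          · exact mul_le_mul_of_nonneg_left h (h01 x).1
      _ = δ ^ 2 := by
          rw [integral_mul_const, trb_val hδ]
          ring

end Pool.Agent.SK
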